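import Pool.Agent.H38.ZZ.Def

/-! Soundness of the interval check: linear factors, nodes, exponential. -/

namespace H84.ZZ

open H38.ZZ

theorem fl (m n : ℕ) (hn : 0 < n) :
    (m : ℝ) / n - 1 ≤ ((m / n : ℕ) : ℝ) ∧ ((m / n : ℕ) : ℝ) ≤ (m : ℝ) / n := by
  refine ⟨?_, Nat.cast_div_le⟩
  have h1 : m < m / n * n + n := Nat.lt_div_mul_add hn
  have h2 : (m : ℝ) < ((m / n : ℕ) : ℝ) * n + n := by exact_mod_cast h1
  have h3 : (0 : ℝ) < n := by exact_mod_cast hn
  rw [sub_le_iff_le_add, div_le_iff₀ h3]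
  nlinarith

theorem fl_abs (m n : ℕ) (hn : 0 < n) : |(m : ℝ) / n - ((m / n : ℕ) : ℝ)| ≤ 1 := by
  obtain ⟨h1, h2⟩ := fl m n hn
  rw [abs_le]; constructor <;> linarith

theorem pow_exp (D T : ℝ) (hD : 0 < D) (hT : 0 ≤ D + T) (n : ℕ) :
    (D + T) ^ n ≤ D ^ n * Real.exp (n / D * T) := by
  have h1 : D + T = D * (1 + T / D) := by field_simp
  have h2 : 0 ≤ 1 + T / D := by
    have : 1 + T / D = (D + T) / D := by field_simp
    rw [this]; positivity
  have h3 : 1 + T / D ≤ Real.exp (T / D) := by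
    have := Real.add_one_le_exp (T / D); linarith
  have h4 : (n : ℝ) / D * T = n * (T / D) := by ring
  rw [h1, mul_pow, h4, Real.exp_nat_mul]
  exact mul_le_mul_of_nonneg_left (pow_le_pow_left₀ h2 h3 n) (by positivity)

theorem dst_eq (a b : ℕ) : dst a b = (a - b) + (b - a) := rfl

theorem lin_bound (C G H n : ℕ) (hne : C ≠ G) :
    ∃ u : ℝ, |u * FF - (if G ≤ C then (linS H (dst C G) n : ℝ) else -(linS H (dst C G) n : ℝ))| ≤ 1 ∧
      ∀ T : ℝ, |T| ≤ H →
        |(C : ℝ) + T - G| ^ n ≤ (linB H (dst C G) n : ℝ) * Real.exp (u * T) := by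
  have hD : 0 < dst C G := by rw [dst_eq]; omega
  have hD' : (0 : ℝ) < (dst C G : ℕ) := by exact_mod_cast hD
  by_cases h4 : 4 * H ≤ dst C G
  · have hb : linB H (dst C G) n = dst C G ^ n := by
      unfold linB; rw [Nat.ble_eq_true_of_le h4]; rfl
    have hs : linS H (dst C G) n = (n * 1152921504606846976) / dst C G := by
      unfold linS; rw [Nat.ble_eq_true_of_le h4]; rfl
    have h4' : (4 : ℝ) * H ≤ (dst C G : ℕ) := by exact_mod_cast h4
    have hfl := fl_abs (n * 1152921504606846976) (dst C G) hD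
    push_cast at hfl
    by_cases hGC : G ≤ C
    · have hdst : ((dst C G : ℕ) : ℝ) = (C : ℝ) - G := by
        rw [dst_eq, show G - C = 0 by omega, add_zero, Nat.cast_sub hGC]
      refine ⟨(n : ℝ) / (dst C G : ℕ), ?_, ?_⟩
      · rw [if_pos hGC, hs]
        have : (n : ℝ) / (dst C G : ℕ) * FF = (n : ℝ) * 1152921504606846976 / (dst C G : ℕ) := by
          unfold FF; ring
        rw [this]; exact hfl
      · intro T hT
        obtain ⟨hT1, hT2⟩ := abs_le.1 hT
        rw [hb]
        push_cast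
        have e : (C : ℝ) + T - G = (dst C G : ℕ) + T := by rw [hdst]; ring
        have hH0 : (0 : ℝ) ≤ H := by positivity
        have hnn : 0 ≤ ((dst C G : ℕ) : ℝ) + T := by linarith
        rw [e, abs_of_nonneg hnn]
        exact pow_exp _ _ hD' hnn n
    · have hdst : ((dst C G : ℕ) : ℝ) = (G : ℝ) - C := by
        rw [dst_eq, show C - G = 0 by omega, zero_add, Nat.cast_sub (by omega)]
      refine ⟨-((n : ℝ) / (dst C G : ℕ)), ?_, ?_⟩
      · rw [if_neg hGC, hs]
        have : -((n : ℝ) / (dst C G : ℕ)) * FF - -(((n * 1152921504606846976 / dst C G : ℕ) : ℝ))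
            = -((n : ℝ) * 1152921504606846976 / (dst C G : ℕ) -
              ((n * 1152921504606846976 / dst C G : ℕ) : ℝ)) := by
          unfold FF; ring
        rw [this, abs_neg]; exact hfl
      · intro T hT
        obtain ⟨hT1, hT2⟩ := abs_le.1 hT
        rw [hb]
        push_cast
        have e : (C : ℝ) + T - G = -((dst C G : ℕ) + -T) := by rw [hdst]; ring
        have hH0 : (0 : ℝ) ≤ H := by positivity
        have hnn : 0 ≤ ((dst C G : ℕ) : ℝ) + -T := by linarith
        rw [e, abs_neg, abs_of_nonneg hnn]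
        have := pow_exp _ (-T) hD' hnn n
        have e2 : (n : ℝ) / (dst C G : ℕ) * -T = -((n : ℝ) / (dst C G : ℕ)) * T := by ring
        rw [e2] at this
        exact this
  · have hb : linB H (dst C G) n = (dst C G + H) ^ n := by
      unfold linB
      rw [show Nat.ble (4 * H) (dst C G) = false from by
        rw [← Bool.not_eq_true, Nat.ble_eq]; exact h4]
      rfl
    have hs : linS H (dst C G) n = 0 := by
      unfold linS
      rw [show Nat.ble (4 * H) (dst C G) = false from by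
        rw [← Bool.not_eq_true, Nat.ble_eq]; exact h4]
      rfl
    refine ⟨0, ?_, ?_⟩
    · rw [hs]; simp
    · intro T hT
      rw [hb, zero_mul, Real.exp_zero, mul_one]
      push_cast
      refine pow_le_pow_left₀ (abs_nonneg _) ?_ n
      have h1 : |(C : ℝ) + T - G| ≤ |(C : ℝ) - G| + |T| := by
        have : (C : ℝ) + T - G = ((C : ℝ) - G) + T := by ring
        rw [this]; exact abs_add_le _ _
      have h2 : |(C : ℝ) - G| = (dst C G : ℕ) := by
        rw [dst_eq]
        rcases le_total G C with h | h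
        · rw [show G - C = 0 by omega, add_zero, Nat.cast_sub h, abs_of_nonneg]
          have : (G : ℝ) ≤ C := by exact_mod_cast h
          linarith
        · rw [show C - G = 0 by omega, zero_add, Nat.cast_sub h, abs_sub_comm, abs_of_nonneg]
          have : (C : ℝ) ≤ G := by exact_mod_cast h
          linarith
      linarith

theorem ownF_eq (C Y K : ℕ) : ownF C Y K = K + ((C - Y) + (Y - C) - K) := rfl

theorem linT_eq (D K : ℕ) : linT D K = (1 - (K - D)) * (2305843009213693952 / D) := rfl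

theorem own_bound (C H Y K : ℕ) (hH : 1 ≤ H) (hHC : H ≤ C) (hK : 1 ≤ K)
    (hV : ownV (C - H) (C + H) Y K = 0) :
    ∃ u : ℝ, |u * FF - ((linT (C - Y) K : ℝ) - (linT (Y - C) K : ℝ))| ≤ 1 ∧
      ∀ T : ℝ, |T| ≤ H →
        (max |(C : ℝ) + T - Y| (K : ℝ)) ^ 2 ≤ (ownF C Y K : ℝ) ^ 2 * Real.exp (u * T) := by
  have hV' : (C + H + K - Y) * (Y + K - (C - H)) * ((Y - (C - H + K)) + (C + H - (Y + K))) = 0 := hV
  have hzero : linT 0 K = 0 := by rw [linT_eq]; simp
  have hHr : (1 : ℝ) ≤ H := by exact_mod_cast hH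
  have hKr : (1 : ℝ) ≤ K := by exact_mod_cast hK
  have key : ∀ D : ℕ, K + H ≤ D → ∀ T : ℝ, |T| ≤ H →
      |(2 / (D : ℝ)) * FF - (linT D K : ℝ)| ≤ 1 ∧ (K : ℝ) ≤ D + T ∧
        (D + T) ^ 2 ≤ (D : ℝ) ^ 2 * Real.exp (2 / (D : ℝ) * T) := by
    intro D hD T hT
    obtain ⟨hT1, hT2⟩ := abs_le.1 hT
    have hD0 : 0 < D := by omega
    have hDr : (K : ℝ) + H ≤ D := by exact_mod_cast hD
    have hD' : (0 : ℝ) < D := by exact_mod_cast hD0
    refine ⟨?_, by linarith, ?_⟩
    · rw [linT_eq, show K - D = 0 by omega]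
      have hfl := fl_abs 2305843009213693952 D hD0
      have e : (2 / (D : ℝ)) * FF = ((2305843009213693952 : ℕ) : ℝ) / D := by
        unfold FF; push_cast; ring
      rw [e]
      simpa using hfl
    · have := pow_exp (D : ℝ) T hD' (by linarith) 2
      simpa using this
  rcases Nat.mul_eq_zero.1 hV' with h | h
  · rcases Nat.mul_eq_zero.1 h with h | h
    · -- `C + H + K ≤ Y`
      have hY : C + H + K ≤ Y := by omega
      have hCY : C - Y = 0 := by omega
      have hD : K + H ≤ Y - C := by omega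
      have hcast : ((Y - C : ℕ) : ℝ) = (Y : ℝ) - C := Nat.cast_sub (by omega)
      have hown : ownF C Y K = Y - C := by rw [ownF_eq]; omega
      refine ⟨-(2 / ((Y - C : ℕ) : ℝ)), ?_, ?_⟩
      · rw [hCY, hzero]
        obtain ⟨h1, -, -⟩ := key _ hD 0 (by simp)
        have e : -(2 / ((Y - C : ℕ) : ℝ)) * FF - (((0 : ℕ) : ℝ) - (linT (Y - C) K : ℝ)) =
            -((2 / ((Y - C : ℕ) : ℝ)) * FF - (linT (Y - C) K : ℝ)) := by
          push_cast; ring
        rw [e, abs_neg]; exact h1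
      · intro T hT
        obtain ⟨-, h2, h3⟩ := key _ hD (-T) (by rwa [abs_neg])
        have e : (C : ℝ) + T - Y = -(((Y - C : ℕ) : ℝ) + -T) := by rw [hcast]; ring
        have hnn : 0 ≤ ((Y - C : ℕ) : ℝ) + -T := by linarith
        rw [e, abs_neg, abs_of_nonneg hnn, max_eq_left h2, hown]
        have e2 : 2 / ((Y - C : ℕ) : ℝ) * -T = -(2 / ((Y - C : ℕ) : ℝ)) * T := by ring
        rw [e2] at h3
        exact h3
    · -- `Y + K ≤ C - H`
      have hY : Y + K ≤ C - H := by omega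
      have hCY : Y - C = 0 := by omega
      have hD : K + H ≤ C - Y := by omega
      have hcast : ((C - Y : ℕ) : ℝ) = (C : ℝ) - Y := Nat.cast_sub (by omega)
      have hown : ownF C Y K = C - Y := by rw [ownF_eq]; omega
      refine ⟨2 / ((C - Y : ℕ) : ℝ), ?_, ?_⟩
      · rw [hCY, hzero]
        obtain ⟨h1, -, -⟩ := key _ hD 0 (by simp)
        simpa using h1
      · intro T hT
        obtain ⟨-, h2, h3⟩ := key _ hD T hT
        have e : (C : ℝ) + T - Y = ((C - Y : ℕ) : ℝ) + T := by rw [hcast]; ring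
        have hnn : 0 ≤ ((C - Y : ℕ) : ℝ) + T := by linarith
        rw [e, abs_of_nonneg hnn, max_eq_left h2, hown]
        exact h3
  · -- inside
    have h1 : Y ≤ C - H + K := by omega
    have h2 : C + H ≤ Y + K := by omega
    have hown : ownF C Y K = K := by rw [ownF_eq]; omega
    have ht1 : linT (C - Y) K = 0 := by
      rw [linT_eq, show 1 - (K - (C - Y)) = 0 by omega, zero_mul]
    have ht2 : linT (Y - C) K = 0 := by
      rw [linT_eq, show 1 - (K - (Y - C)) = 0 by omega, zero_mul]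
    refine ⟨0, ?_, ?_⟩
    · rw [ht1, ht2]; simp
    · intro T hT
      obtain ⟨hT1, hT2⟩ := abs_le.1 hT
      rw [hown, zero_mul, Real.exp_zero, mul_one]
      have a1 : (Y : ℝ) + H ≤ C + K := by
        have : Y + H ≤ C + K := by omega
        exact_mod_cast this
      have a2 : (C : ℝ) + H ≤ Y + K := by exact_mod_cast h2
      have : |(C : ℝ) + T - Y| ≤ K := by rw [abs_le]; constructor <;> linarith
      rw [max_eq_right this]

theorem amgm (a x y : ℝ) (ha : 0 ≤ a) (hx : 0 ≤ x) (hy : 0 ≤ y) :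
    3 * a * (x * y) ≤ a ^ 3 + x * y * (x + y) := by
  rcases le_total (3 * a) (x + y) with h | h
  · have h1 : 3 * a * (x * y) ≤ (x + y) * (x * y) :=
      mul_le_mul_of_nonneg_right h (by positivity)
    have h2 : 0 ≤ a ^ 3 := by positivity
    nlinarith
  · have h1 : 0 ≤ (x + y - 2 * a) ^ 2 * (x + y + a) := by positivity
    have h2 : 0 ≤ (x - y) ^ 2 * (3 * a - (x + y)) := mul_nonneg (sq_nonneg _) (by linarith)
    nlinarith

theorem rho_ge (C Y K : ℕ) : 3145728 * (C * Y) ≤
    1152921504606846976 + C * Y * (C + Y) + K * K * 1048576 := by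
  have h := amgm 1048576 C Y (by norm_num) (by positivity) (by positivity)
  have h2 : (0 : ℝ) ≤ (K : ℝ) * K * 1048576 := by positivity
  have h3 : (3145728 : ℝ) * (C * Y) ≤
      1152921504606846976 + C * Y * (C + Y) + K * K * 1048576 := by
    nlinarith
  exact_mod_cast h3

theorem rho_cast (C Y K : ℕ) : (rho C Y K : ℝ) =
    1152921504606846976 + (C : ℝ) * Y * (C + Y) + K * K * 1048576 - 3145728 * (C * Y) := by
  have h : rho C Y K = (1152921504606846976 + C * Y * (C + Y) + K * K * 1048576)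
      - 3145728 * (C * Y) := rfl
  rw [h, Nat.cast_sub (rho_ge C Y K)]
  push_cast; ring

theorem rho_pos (C Y K : ℕ) (hK : 1 ≤ K) : 0 < rho C Y K := by
  have h := amgm 1048576 C Y (by norm_num) (by positivity) (by positivity)
  have h2 : (0 : ℝ) < (K : ℝ) * K * 1048576 := by
    have : (0 : ℝ) < K := by exact_mod_cast hK
    positivity
  have h3 : (0 : ℝ) < (rho C Y K : ℝ) := by rw [rho_cast]; nlinarith
  exact_mod_cast h3

theorem rho_bound (C H Y K : ℕ) (hK : 1 ≤ K) :
    ∃ u : ℝ, |u * FF -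
      (((Y * (2 * C + Y - 3145728) * 1152921504606846976 / rho C Y K : ℕ) : ℝ) -
        ((Y * (3145728 - (2 * C + Y)) * 1152921504606846976 / rho C Y K : ℕ) : ℝ))| ≤ 1 ∧
      ∀ T : ℝ, |T| ≤ H →
        1152921504606846976 + ((C : ℝ) + T) * Y * ((C + T) + Y) + (K : ℝ) * K * 1048576
            - 3145728 * ((C + T) * Y) ≤
          (rho C Y K : ℝ) * Real.exp (u * T + (nodeT C H Y K : ℝ) / FF) := by
  have hr := rho_pos C Y K hK
  have hr' : (0 : ℝ) < (rho C Y K : ℕ) := by exact_mod_cast hr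
  refine ⟨(Y : ℝ) * (2 * C + Y - 3145728) / (rho C Y K : ℕ), ?_, ?_⟩
  · rcases le_total 3145728 (2 * C + Y) with h | h
    · rw [show 3145728 - (2 * C + Y) = 0 by omega]
      have hfl := fl_abs (Y * (2 * C + Y - 3145728) * 1152921504606846976) (rho C Y K) hr
      have e : (Y : ℝ) * (2 * C + Y - 3145728) / (rho C Y K : ℕ) * FF =
          ((Y * (2 * C + Y - 3145728) * 1152921504606846976 : ℕ) : ℝ) / (rho C Y K : ℕ) := by
        unfold FF
        push_cast [Nat.cast_sub h]
        ring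
      rw [e, mul_zero, zero_mul, Nat.zero_div, Nat.cast_zero, sub_zero]
      exact hfl
    · rw [show 2 * C + Y - 3145728 = 0 by omega]
      have hfl := fl_abs (Y * (3145728 - (2 * C + Y)) * 1152921504606846976) (rho C Y K) hr
      have e : (Y : ℝ) * (2 * C + Y - 3145728) / (rho C Y K : ℕ) * FF =
          -(((Y * (3145728 - (2 * C + Y)) * 1152921504606846976 : ℕ) : ℝ) / (rho C Y K : ℕ)) := by
        unfold FF
        push_cast [Nat.cast_sub h]
        ring
      rw [e, mul_zero, zero_mul, Nat.zero_div]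
      rw [show (-(((Y * (3145728 - (2 * C + Y)) * 1152921504606846976 : ℕ) : ℝ) /
          (rho C Y K : ℕ)) - (((0 : ℕ) : ℝ) -
          ((Y * (3145728 - (2 * C + Y)) * 1152921504606846976 / rho C Y K : ℕ) : ℝ))) =
        -((((Y * (3145728 - (2 * C + Y)) * 1152921504606846976 : ℕ) : ℝ) /
          (rho C Y K : ℕ)) -
          ((Y * (3145728 - (2 * C + Y)) * 1152921504606846976 / rho C Y K : ℕ) : ℝ)) by
            push_cast; ring, abs_neg]
      exact hfl
  · intro T hT
    have hT2 : T ^ 2 ≤ (H : ℝ) ^ 2 := by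
      have := pow_le_pow_left₀ (abs_nonneg T) hT 2
      rwa [sq_abs] at this
    have hsum : 1152921504606846976 + ((C : ℝ) + T) * Y * ((C + T) + Y) + (K : ℝ) * K * 1048576
            - 3145728 * ((C + T) * Y) = (rho C Y K : ℝ) *
              (1 + ((Y : ℝ) * (2 * C + Y - 3145728) / (rho C Y K : ℕ) * T +
                Y * T ^ 2 / (rho C Y K : ℕ))) := by
      have g1 : (rho C Y K : ℝ) * ((Y : ℝ) * (2 * C + Y - 3145728) / (rho C Y K : ℕ) * T) =
        (Y : ℝ) * (2 * C + Y - 3145728) * T := by field_simp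
      have g2 : (rho C Y K : ℝ) * (Y * T ^ 2 / (rho C Y K : ℕ)) = Y * T ^ 2 := by field_simp
      have g3 := rho_cast C Y K
      linear_combination -g1 - g2 - g3
    rw [hsum]
    refine mul_le_mul_of_nonneg_left ?_ hr'.le
    refine le_trans (by rw [add_comm]; exact Real.add_one_le_exp _) (Real.exp_le_exp.2 ?_)
    refine add_le_add_right ?_ _
    have hnt : nodeT C H Y K =
        (Y * (H * H) * 1152921504606846976) / rho C Y K + 1 := rfl
    obtain ⟨f1, -⟩ := fl (Y * (H * H) * 1152921504606846976) (rho C Y K) hr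
    rw [hnt]
    have hFF : (0 : ℝ) < FF := by unfold FF; norm_num
    rw [le_div_iff₀ hFF]
    have a1 : (Y : ℝ) * T ^ 2 / (rho C Y K : ℕ) * FF ≤
        ((Y * (H * H) * 1152921504606846976 : ℕ) : ℝ) / (rho C Y K : ℕ) := by
      have : (Y : ℝ) * T ^ 2 ≤ Y * (H * H) := by
        have := mul_le_mul_of_nonneg_left hT2 (show (0 : ℝ) ≤ Y by positivity)
        nlinarith
      rw [div_mul_eq_mul_div, div_le_div_iff_of_pos_right hr']
      unfold FF
      push_cast
      nlinarith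
    push_cast at a1 f1 ⊢
    linarith

theorem node_bound (C H Y K : ℕ) (hH : 1 ≤ H) (hHC : H ≤ C) (hK : 1 ≤ K)
    (hV : ownV (C - H) (C + H) Y K = 0) :
    ∃ u : ℝ, |u * FF - ((nodeP C Y K : ℝ) - (nodeN C Y K : ℝ))| ≤ 2 ∧
      ∀ T : ℝ, |T| ≤ H → 0 ≤ nodeR (C + T) (Y, K) ∧
        nodeR (C + T) (Y, K) ≤ (ownF C Y K : ℝ) ^ 2 * (rho C Y K : ℝ) *
          Real.exp (u * T + (nodeT C H Y K : ℝ) / FF) := by
  obtain ⟨u1, h1, b1⟩ := own_bound C H Y K hH hHC hK hV
  obtain ⟨u2, h2, b2⟩ := rho_bound C H Y K hK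
  refine ⟨u1 + u2, ?_, ?_⟩
  · have hP : nodeP C Y K = linT (C - Y) K +
        Y * (2 * C + Y - 3145728) * 1152921504606846976 / rho C Y K := rfl
    have hN : nodeN C Y K = linT (Y - C) K +
        Y * (3145728 - (2 * C + Y)) * 1152921504606846976 / rho C Y K := rfl
    rw [hP, hN]
    push_cast at h1 h2 ⊢
    obtain ⟨x1, x2⟩ := abs_le.1 h1
    obtain ⟨y1, y2⟩ := abs_le.1 h2
    rw [abs_le]
    constructor <;> nlinarith
  · intro T hT
    have g1 := b1 T hT
    have g2 := b2 T hT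
    obtain ⟨hT1, hT2⟩ := abs_le.1 hT
    have hHCr : (H : ℝ) ≤ C := by exact_mod_cast hHC
    have hX : 0 ≤ (C : ℝ) + T := by linarith
    have hpos : 0 ≤ 1152921504606846976 + ((C : ℝ) + T) * Y * ((C + T) + Y)
        + (K : ℝ) * K * 1048576 - 3145728 * ((C + T) * Y) := by
      have h := amgm 1048576 ((C : ℝ) + T) Y (by norm_num) hX (by positivity)
      have h2 : (0 : ℝ) ≤ (K : ℝ) * K * 1048576 := by positivity
      nlinarith
    refine ⟨mul_nonneg (by positivity) hpos, ?_⟩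
    show (max |(C : ℝ) + T - Y| (K : ℝ)) ^ 2 *
      (1152921504606846976 + ((C : ℝ) + T) * Y * ((C + T) + Y)
        + (K : ℝ) * K * 1048576 - 3145728 * ((C + T) * Y)) ≤ _
    have e : (ownF C Y K : ℝ) ^ 2 * (rho C Y K : ℝ) *
          Real.exp ((u1 + u2) * T + (nodeT C H Y K : ℝ) / FF) =
        ((ownF C Y K : ℝ) ^ 2 * Real.exp (u1 * T)) *
          ((rho C Y K : ℝ) * Real.exp (u2 * T + (nodeT C H Y K : ℝ) / FF)) := by
      rw [show (u1 + u2) * T + (nodeT C H Y K : ℝ) / FF =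
        u1 * T + (u2 * T + (nodeT C H Y K : ℝ) / FF) by ring, Real.exp_add]
      ring
    rw [e]
    exact mul_le_mul g1 g2 hpos (by positivity)

theorem sumL_cons (f : ℕ → ℕ → ℕ) (a : ℕ × ℕ) (l : List (ℕ × ℕ)) :
    sumL f (a :: l) = f a.1 a.2 + sumL f l := rfl

theorem prodL_cons (f : ℕ → ℕ → ℕ) (a : ℕ × ℕ) (l : List (ℕ × ℕ)) :
    prodL f (a :: l) = f a.1 a.2 * prodL f l := rfl

theorem sumL_nil (f : ℕ → ℕ → ℕ) : sumL f [] = 0 := rfl

theorem prodL_nil (f : ℕ → ℕ → ℕ) : prodL f [] = 1 := rfl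

theorem nodes_bound (C H : ℕ) (hH : 1 ≤ H) (hHC : H ≤ C) (ch : List (ℕ × ℕ))
    (hK : ∀ a ∈ ch, 1 ≤ a.2) (hV : sumL (ownV (C - H) (C + H)) ch = 0) :
    ∃ u : ℝ, |u * FF - ((sumL (nodeP C) ch : ℝ) - (sumL (nodeN C) ch : ℝ))| ≤ 2 * ch.length ∧
      ∀ T : ℝ, |T| ≤ H → 0 ≤ (ch.map (nodeR (C + T))).prod ∧
        (ch.map (nodeR (C + T))).prod ≤ (prodL (ownF C) ch : ℝ) ^ 2 * (prodL (rho C) ch : ℝ) *
          Real.exp (u * T + (sumL (nodeT C H) ch : ℝ) / FF) := by
  induction ch with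
  | nil =>
    refine ⟨0, by simp [sumL_nil], fun T _ => ⟨by simp, ?_⟩⟩
    simp [sumL_nil, prodL_nil]
  | cons a l ih =>
    rw [sumL_cons] at hV
    obtain ⟨hV1, hV2⟩ := Nat.add_eq_zero_iff.1 hV
    obtain ⟨u1, h1, b1⟩ := node_bound C H a.1 a.2 hH hHC (hK a (by simp)) hV1
    obtain ⟨u2, h2, b2⟩ := ih (fun c hc => hK c (by simp [hc])) hV2
    refine ⟨u1 + u2, ?_, ?_⟩
    · rw [sumL_cons, sumL_cons, List.length_cons]
      push_cast
      obtain ⟨x1, x2⟩ := abs_le.1 h1
      obtain ⟨y1, y2⟩ := abs_le.1 h2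
      rw [abs_le]
      constructor <;> nlinarith
    · intro T hT
      obtain ⟨p1, q1⟩ := b1 T hT
      obtain ⟨p2, q2⟩ := b2 T hT
      rw [List.map_cons, List.prod_cons]
      refine ⟨mul_nonneg p1 p2, ?_⟩
      rw [sumL_cons, prodL_cons, prodL_cons]
      push_cast
      have e : ((ownF C a.1 a.2 : ℝ) * (prodL (ownF C) l : ℝ)) ^ 2 *
            ((rho C a.1 a.2 : ℝ) * (prodL (rho C) l : ℝ)) *
            Real.exp ((u1 + u2) * T +
              ((nodeT C H a.1 a.2 : ℝ) + (sumL (nodeT C H) l : ℝ)) / FF) =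
          ((ownF C a.1 a.2 : ℝ) ^ 2 * (rho C a.1 a.2 : ℝ) *
            Real.exp (u1 * T + (nodeT C H a.1 a.2 : ℝ) / FF)) *
          ((prodL (ownF C) l : ℝ) ^ 2 * (prodL (rho C) l : ℝ) *
            Real.exp (u2 * T + (sumL (nodeT C H) l : ℝ) / FF)) := by
        rw [show (u1 + u2) * T + ((nodeT C H a.1 a.2 : ℝ) + (sumL (nodeT C H) l : ℝ)) / FF =
          (u1 * T + (nodeT C H a.1 a.2 : ℝ) / FF) + (u2 * T + (sumL (nodeT C H) l : ℝ) / FF) by
            ring, Real.exp_add]
        ring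
      rw [e]
      exact mul_le_mul q1 q2 p2 (by positivity)

theorem exp_bound (k u : ℕ) (hu : u ≤ 65536) :
    Real.exp (((k : ℝ) * FF + u * 17592186044416) / FF) ≤
      3 ^ k * ((4294967296 + u * 65536 + u * u : ℝ) / 4294967296) := by
  have e : ((k : ℝ) * FF + u * 17592186044416) / FF = k * 1 + u / 65536 := by
    unfold FF; field_simp; ring
  rw [e, Real.exp_add, Real.exp_nat_mul]
  refine mul_le_mul ?_ ?_ (Real.exp_pos _).le (by positivity)
  · refine pow_le_pow_left₀ (Real.exp_pos _).le ?_ k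
    have := Real.exp_one_lt_d9
    linarith
  · have hu' : (u : ℝ) ≤ 65536 := by exact_mod_cast hu
    have hx0 : (0 : ℝ) ≤ u / 65536 := by positivity
    have hx1 : (u : ℝ) / 65536 ≤ 1 := by
      rw [div_le_one (by norm_num)]; exact hu'
    have h := Real.abs_exp_sub_one_sub_id_le (x := (u : ℝ) / 65536) (by rw [abs_of_nonneg hx0]; exact hx1)
    have h2 := (abs_le.1 h).2
    have e2 : (4294967296 + u * 65536 + u * u : ℝ) / 4294967296 =
        1 + u / 65536 + (u / 65536) ^ 2 := by ring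
    rw [e2]; linarith

end H84.ZZ
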