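import Mathlib

/-! Averages of `log (‖a + b x‖ ^ 2 + δ ^ 2)` over the unit circle. -/

open Real Complex

namespace H84.ZZ

theorem int_log (α β : ℂ) :
    CircleIntegrable (fun x : ℂ => Real.log ‖α + β * x‖) 0 1 :=
  MeromorphicOn.circleIntegrable_log_norm (f := fun x : ℂ => α + β * x) (fun _ _ => by fun_prop)

theorem int_logsq (α β : ℂ) {δ : ℝ} (hδ : 0 < δ) :
    CircleIntegrable (fun x : ℂ => Real.log (‖α + β * x‖ ^ 2 + δ ^ 2)) 0 1 := by
  refine ContinuousOn.circleIntegrable (by norm_num) ?_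
  refine Continuous.continuousOn ?_
  refine Continuous.log (by fun_prop) ?_
  intro x
  positivity

theorem avg_log (α β : ℂ) (hβ : β ≠ 0) :
    Real.circleAverage (fun x : ℂ => Real.log ‖α + β * x‖) 0 1 = Real.log (max ‖α‖ ‖β‖) := by
  have hb : 0 < ‖β‖ := norm_pos_iff.2 hβ
  have h1 : Real.circleAverage (fun x : ℂ => Real.log ‖α + β * x‖) 0 1 =
      Real.circleAverage (fun x : ℂ => Real.log ‖β‖ + Real.log ‖x + α / β‖) 0 1 := by
    apply circleAverage_congr_codiscreteWithin _ (zero_ne_one' ℝ).symm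
    have h2 : {z : ℂ | ‖z + α / β‖ ≠ 0} ∈ Filter.codiscreteWithin (Metric.sphere (0 : ℂ) |1|) := by
      apply codiscreteWithin_iff_locallyFiniteComplementWithin.2
      intro z hz
      use Set.univ
      simp only [Filter.univ_mem, abs_one, ne_eq, norm_eq_zero, Set.univ_inter, true_and]
      apply Set.Subsingleton.finite
      intro z₁ hz₁ z₂ hz₂
      simp only [Set.mem_sdiff, Set.mem_ofPred_eq, Decidable.not_not] at hz₁ hz₂
      rw [add_eq_zero_iff_eq_neg.1 hz₁.2, add_eq_zero_iff_eq_neg.1 hz₂.2]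
    filter_upwards [h2] with z hz
    rw [← Real.log_mul hb.ne' hz, ← norm_mul]
    congr 2
    field_simp
    ring
  rw [h1, ← Pi.add_def, circleAverage_add (circleIntegrable_const (Real.log ‖β‖) 0 1)
    (MeromorphicOn.circleIntegrable_log_norm (fun _ _ ↦ by fun_prop)), circleAverage_const,
    circleAverage_log_norm_add_const_eq_posLog, norm_div]
  by_cases h : ‖α‖ ≤ ‖β‖
  · rw [max_eq_right h, (posLog_eq_zero_iff _).2, add_zero]
    rw [abs_of_nonneg (by positivity)]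
    exact (div_le_one hb).2 h
  · rw [not_le] at h
    rw [max_eq_left h.le, posLog_eq_log, Real.log_div (hb.trans h).ne' hb.ne']
    · ring
    · rw [abs_of_nonneg (by positivity)]
      exact (one_le_div hb).2 h.le

/-- On the unit circle `‖l a + (b / l) x‖ ^ 2 = l ^ 2 ‖a‖ ^ 2 + ‖b‖ ^ 2 / l ^ 2 + 2 Re (conj a b x)`. -/
theorem norm_sq_eq (a b x : ℂ) (l : ℝ) (hl : 0 < l) (hx : ‖x‖ = 1) :
    ‖(l : ℂ) * a + b / (l : ℂ) * x‖ ^ 2 =
      l ^ 2 * ‖a‖ ^ 2 + ‖b‖ ^ 2 / l ^ 2 + (‖a + b * x‖ ^ 2 - ‖a‖ ^ 2 - ‖b‖ ^ 2) := by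
  have h : ∀ u v : ℂ, ‖u + v‖ ^ 2 = ‖u‖ ^ 2 + ‖v‖ ^ 2 + 2 * (u * (starRingEnd ℂ) v).re := by
    intro u v
    rw [← Complex.normSq_eq_norm_sq, ← Complex.normSq_eq_norm_sq, ← Complex.normSq_eq_norm_sq,
      Complex.normSq_add]
  rw [h, h]
  have h1 : (l : ℂ) * a * (starRingEnd ℂ) (b / (l : ℂ) * x) = a * (starRingEnd ℂ) (b * x) := by
    rw [map_mul, map_div₀, map_mul, Complex.conj_ofReal]
    have : (l : ℂ) ≠ 0 := by exact_mod_cast hl.ne'
    field_simp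
  rw [h1, norm_mul, norm_mul, norm_mul, norm_div, hx, Complex.norm_real, Real.norm_of_nonneg hl.le]
  ring

theorem avg_lower (a b : ℂ) {δ : ℝ} (hδ : 0 < δ) (ha : a ≠ 0) :
    2 * Real.log ‖a‖ ≤
      Real.circleAverage (fun x : ℂ => Real.log (‖a + b * x‖ ^ 2 + δ ^ 2)) 0 1 := by
  have ha' : 0 < ‖a‖ := norm_pos_iff.2 ha
  by_cases hb : b = 0
  · subst hb
    have h1 : (fun x : ℂ => Real.log (‖a + 0 * x‖ ^ 2 + δ ^ 2)) =
        fun _ => Real.log (‖a‖ ^ 2 + δ ^ 2) := by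
      funext x
      rw [zero_mul, add_zero]
    rw [h1, circleAverage_const, ← Real.log_rpow ha', Real.rpow_two]
    exact Real.log_le_log (by positivity) (by nlinarith)
  have hb' : 0 < ‖b‖ := norm_pos_iff.2 hb
  -- choose l
  obtain ⟨l, hl1, hl2, hl3⟩ : ∃ l : ℝ, 1 < l ∧ l ^ 2 * ‖a‖ ^ 2 ≤ ‖a‖ ^ 2 + δ ^ 2 ∧
      l ^ 2 * ‖a‖ ≠ ‖b‖ := by
    have key : ∀ e : ℝ, 0 < e → e ≤ δ ^ 2 / ‖a‖ ^ 2 → (1 + e) * ‖a‖ ≠ ‖b‖ →
        ∃ l : ℝ, 1 < l ∧ l ^ 2 * ‖a‖ ^ 2 ≤ ‖a‖ ^ 2 + δ ^ 2 ∧ l ^ 2 * ‖a‖ ≠ ‖b‖ := by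
      intro e he he1 he2
      have h3 : Real.sqrt (1 + e) ^ 2 = 1 + e := Real.sq_sqrt (by linarith)
      refine ⟨Real.sqrt (1 + e), ?_, ?_, ?_⟩
      · rw [Real.lt_sqrt (by norm_num)]
        linarith
      · rw [h3]
        have h4 : e * ‖a‖ ^ 2 ≤ δ ^ 2 := by
          rwa [le_div_iff₀ (by positivity)] at he1
        linarith
      · rw [h3]
        exact he2
    by_cases h : (1 + δ ^ 2 / ‖a‖ ^ 2) * ‖a‖ = ‖b‖
    · refine key (δ ^ 2 / ‖a‖ ^ 2 / 2) (by positivity) ?_ ?_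
      · have : 0 < δ ^ 2 / ‖a‖ ^ 2 := by positivity
        linarith
      · intro h'
        have h5 : (1 + δ ^ 2 / ‖a‖ ^ 2) = (1 + δ ^ 2 / ‖a‖ ^ 2 / 2) :=
          mul_right_cancel₀ ha'.ne' (h.trans h'.symm)
        have : 0 < δ ^ 2 / ‖a‖ ^ 2 := by positivity
        linarith
    · exact key _ (by positivity) le_rfl h
  have hl0 : 0 < l := by linarith
  have hlc : (l : ℂ) ≠ 0 := by exact_mod_cast hl0.ne'
  have hpt : ∀ x ∈ Metric.sphere (0 : ℂ) |1|, 2 * Real.log ‖(l : ℂ) * a + b / (l : ℂ) * x‖ ≤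
      Real.log (‖a + b * x‖ ^ 2 + δ ^ 2) := by
    intro x hx
    have hx' : ‖x‖ = 1 := by simpa using hx
    have h1 := norm_sq_eq a b x l hl0 hx'
    have h2 : ‖(l : ℂ) * a + b / (l : ℂ) * x‖ ^ 2 ≤ ‖a + b * x‖ ^ 2 + δ ^ 2 := by
      rw [h1]
      have h3 : ‖b‖ ^ 2 / l ^ 2 ≤ ‖b‖ ^ 2 := div_le_self (by positivity) (by nlinarith)
      linarith
    have h4 : ‖(l : ℂ) * a + b / (l : ℂ) * x‖ ≠ 0 := by
      intro h5
      rw [norm_eq_zero] at h5
      apply hl3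
      have h6 : (l : ℂ) * a = -(b / (l : ℂ) * x) := eq_neg_of_add_eq_zero_left h5
      have h7 := congrArg norm h6
      rw [norm_neg, norm_mul, norm_mul, norm_div, hx', Complex.norm_real,
        Real.norm_of_nonneg hl0.le] at h7
      field_simp at h7
      exact h7
    have h5 : 0 < ‖(l : ℂ) * a + b / (l : ℂ) * x‖ := lt_of_le_of_ne (norm_nonneg _) h4.symm
    calc 2 * Real.log ‖(l : ℂ) * a + b / (l : ℂ) * x‖
        = Real.log (‖(l : ℂ) * a + b / (l : ℂ) * x‖ ^ 2) := by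
          rw [Real.log_pow]
          norm_num
      _ ≤ _ := Real.log_le_log (by positivity) h2
  have h8 : Real.circleAverage (fun x : ℂ => 2 * Real.log ‖(l : ℂ) * a + b / (l : ℂ) * x‖) 0 1 =
      2 * Real.log (max ‖(l : ℂ) * a‖ ‖b / (l : ℂ)‖) := by
    have h9 : (fun x : ℂ => 2 * Real.log ‖(l : ℂ) * a + b / (l : ℂ) * x‖) =
        (2 : ℝ) • fun x : ℂ => Real.log ‖(l : ℂ) * a + b / (l : ℂ) * x‖ := by
      funext x
      rfl
    rw [h9, circleAverage_smul, avg_log _ _ (div_ne_zero hb hlc)]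
    rfl
  have hi : CircleIntegrable (fun x : ℂ => 2 * Real.log ‖(l : ℂ) * a + b / (l : ℂ) * x‖) 0 1 :=
    (int_log ((l : ℂ) * a) (b / (l : ℂ))).const_smul (a := (2 : ℝ))
  have h10 := circleAverage_mono (c := 0) (R := 1) hi (int_logsq a b hδ) hpt
  rw [h8] at h10
  refine le_trans ?_ h10
  have h11 : ‖a‖ ≤ ‖(l : ℂ) * a‖ := by
    rw [norm_mul, Complex.norm_real, Real.norm_of_nonneg hl0.le]
    nlinarith
  have h12 := Real.log_le_log ha' (h11.trans (le_max_left _ ‖b / (l : ℂ)‖))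
  linarith

theorem avg_upper (a : ℂ) {r δ : ℝ} (hr : 0 < r) (hδ : 0 < δ) :
    Real.circleAverage (fun x : ℂ => Real.log (‖a + (r : ℂ) * x‖ ^ 2 + δ ^ 2)) 0 1 ≤
      2 * Real.log (max ‖a‖ r) + 2 * (δ / r) := by
  have hr' : ‖(r : ℂ)‖ = r := by rw [Complex.norm_real, Real.norm_of_nonneg hr.le]
  have ht : 0 < δ / r := by positivity
  set t : ℝ := δ / r with htd
  have hδt : δ = t * r := by
    rw [htd]
    field_simp
  -- choose l
  obtain ⟨l, hl0, hl1, hl2⟩ : ∃ l : ℝ, 0 < l ∧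
      ‖a‖ ^ 2 + r ^ 2 + δ ^ 2 ≤ l ^ 2 * ‖a‖ ^ 2 + r ^ 2 / l ^ 2 ∧
      max (l * ‖a‖) (r / l) ≤ (1 + t) * max ‖a‖ r := by
    by_cases h : ‖a‖ ≤ r
    · refine ⟨(1 + t)⁻¹, by positivity, ?_, ?_⟩
      · have h1 : r ^ 2 / (1 + t)⁻¹ ^ 2 = (1 + t) ^ 2 * r ^ 2 := by
          field_simp
        rw [h1, hδt]
        have h2 : (1 + t)⁻¹ ^ 2 * ‖a‖ ^ 2 = ‖a‖ ^ 2 - (1 - (1 + t)⁻¹ ^ 2) * ‖a‖ ^ 2 := by ring
        rw [h2]
        have h3 : 1 - (1 + t)⁻¹ ^ 2 ≤ 2 * t := by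
          have h4 : (1 + t)⁻¹ ^ 2 * (1 + t) ^ 2 = 1 := by
            rw [← mul_pow, inv_mul_cancel₀ (by positivity), one_pow]
          have h5 : 0 < (1 + t) ^ 2 := by positivity
          have h6 : 1 - (1 + t)⁻¹ ^ 2 = ((1 + t) ^ 2 - 1) / (1 + t) ^ 2 := by
            field_simp
          rw [h6, div_le_iff₀ h5]
          nlinarith [pow_pos ht 2, pow_pos ht 3]
        have h7 : 0 ≤ 1 - (1 + t)⁻¹ ^ 2 := by
          have : (1 + t)⁻¹ ^ 2 ≤ 1 := pow_le_one₀ (by positivity) (inv_le_one_of_one_le₀ (by linarith))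
          linarith
        have h8 : (1 - (1 + t)⁻¹ ^ 2) * ‖a‖ ^ 2 ≤ 2 * t * r ^ 2 := by
          have : ‖a‖ ^ 2 ≤ r ^ 2 := pow_le_pow_left₀ (norm_nonneg a) h 2
          exact mul_le_mul h3 this (by positivity) (by positivity)
        nlinarith
      · rw [max_eq_right h]
        refine max_le ?_ ?_
        · have h9 : (1 + t)⁻¹ * ‖a‖ ≤ 1 * r :=
            mul_le_mul (inv_le_one_of_one_le₀ (by linarith)) h (norm_nonneg a) (by norm_num)
          nlinarith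
        · rw [div_inv_eq_mul, mul_comm]
    · rw [not_le] at h
      refine ⟨1 + t, by positivity, ?_, ?_⟩
      · rw [hδt]
        have h5 : 0 < (1 + t) ^ 2 := by positivity
        have h2 : r ^ 2 / (1 + t) ^ 2 = r ^ 2 - r ^ 2 * ((2 * t + t ^ 2) / (1 + t) ^ 2) := by
          field_simp
          ring
        have h3 : r ^ 2 * (2 * t + t ^ 2) ≤ ‖a‖ ^ 2 * (2 * t + t ^ 2) := by
          have : r ^ 2 ≤ ‖a‖ ^ 2 := pow_le_pow_left₀ hr.le h.le 2
          exact mul_le_mul_of_nonneg_right this (by positivity)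
        have h4 : t ^ 2 ≤ (2 * t + t ^ 2) * (1 - 1 / (1 + t) ^ 2) := by
          have h6 : (2 * t + t ^ 2) * (1 - 1 / (1 + t) ^ 2) = (2 * t + t ^ 2) ^ 2 / (1 + t) ^ 2 := by
            field_simp
            ring
          rw [h6, le_div_iff₀ h5]
          nlinarith [sq_nonneg t, mul_pos ht ht, pow_pos ht 3, pow_pos ht 4]
        have h7 : r ^ 2 * t ^ 2 ≤ r ^ 2 * ((2 * t + t ^ 2) * (1 - 1 / (1 + t) ^ 2)) :=
          mul_le_mul_of_nonneg_left h4 (by positivity)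
        have h8 : r ^ 2 * ((2 * t + t ^ 2) * (1 - 1 / (1 + t) ^ 2)) =
            r ^ 2 * (2 * t + t ^ 2) - r ^ 2 * ((2 * t + t ^ 2) / (1 + t) ^ 2) := by ring
        rw [h2]
        nlinarith
      · rw [max_eq_left h.le]
        refine max_le le_rfl ?_
        have h9 : r / (1 + t) ≤ r := div_le_self hr.le (by linarith)
        nlinarith
  have hlc : (l : ℂ) ≠ 0 := by exact_mod_cast hl0.ne'
  have hrc : (r : ℂ) ≠ 0 := by exact_mod_cast hr.ne'
  have hpt : ∀ x ∈ Metric.sphere (0 : ℂ) |1|, Real.log (‖a + (r : ℂ) * x‖ ^ 2 + δ ^ 2) ≤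
      2 * Real.log ‖(l : ℂ) * a + (r : ℂ) / (l : ℂ) * x‖ := by
    intro x hx
    have hx' : ‖x‖ = 1 := by simpa using hx
    have h1 := norm_sq_eq a (r : ℂ) x l hl0 hx'
    rw [hr'] at h1
    have h2 : ‖a + (r : ℂ) * x‖ ^ 2 + δ ^ 2 ≤ ‖(l : ℂ) * a + (r : ℂ) / (l : ℂ) * x‖ ^ 2 := by
      rw [h1]
      linarith
    calc Real.log (‖a + (r : ℂ) * x‖ ^ 2 + δ ^ 2)
        ≤ Real.log (‖(l : ℂ) * a + (r : ℂ) / (l : ℂ) * x‖ ^ 2) :=
          Real.log_le_log (by positivity) h2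
      _ = _ := by
          rw [Real.log_pow]
          norm_num
  have h8 : Real.circleAverage
      (fun x : ℂ => 2 * Real.log ‖(l : ℂ) * a + (r : ℂ) / (l : ℂ) * x‖) 0 1 =
      2 * Real.log (max ‖(l : ℂ) * a‖ ‖(r : ℂ) / (l : ℂ)‖) := by
    have h9 : (fun x : ℂ => 2 * Real.log ‖(l : ℂ) * a + (r : ℂ) / (l : ℂ) * x‖) =
        (2 : ℝ) • fun x : ℂ => Real.log ‖(l : ℂ) * a + (r : ℂ) / (l : ℂ) * x‖ := by
      funext x
      rfl
    rw [h9, circleAverage_smul, avg_log _ _ (div_ne_zero hrc hlc)]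
    rfl
  have hi : CircleIntegrable
      (fun x : ℂ => 2 * Real.log ‖(l : ℂ) * a + (r : ℂ) / (l : ℂ) * x‖) 0 1 :=
    (int_log ((l : ℂ) * a) ((r : ℂ) / (l : ℂ))).const_smul (a := (2 : ℝ))
  have h10 := circleAverage_mono (c := 0) (R := 1) (int_logsq a (r : ℂ) hδ) hi hpt
  rw [h8, norm_mul, norm_div, hr', Complex.norm_real, Real.norm_of_nonneg hl0.le] at h10
  refine h10.trans ?_
  have hm : 0 < max ‖a‖ r := lt_max_of_lt_right hr
  have h12 : Real.log (max (l * ‖a‖) (r / l)) ≤ Real.log ((1 + t) * max ‖a‖ r) :=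
    Real.log_le_log (lt_max_of_lt_right (by positivity)) hl2
  rw [Real.log_mul (by positivity) hm.ne'] at h12
  have h13 : Real.log (1 + t) ≤ t := by
    have := Real.log_le_sub_one_of_pos (show 0 < 1 + t by positivity)
    linarith
  linarith

end H84.ZZ
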