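import Mathlib

/-! Lower bound `(C + T)^m ≥ C^m exp (m T / C - m T^2 / C^2)` for `|T| ≤ C / 2`. -/

namespace H84.ZZ

theorem one_add_ge_exp (x : ℝ) (h1 : -(1 / 2) ≤ x) (h2 : x ≤ 1 / 2) :
    Real.exp (x - x ^ 2) ≤ 1 + x := by
  rcases le_total 0 x with hx | hx
  · have hy0 : 0 ≤ x - x ^ 2 := by nlinarith
    have hy1 : x - x ^ 2 ≤ 1 := by nlinarith
    have h := Real.abs_exp_sub_one_sub_id_le (x := x - x ^ 2) (by rwa [abs_of_nonneg hy0])
    have h3 := (abs_le.1 h).2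
    have h4 : 0 ≤ x ^ 3 * (2 - x) := mul_nonneg (by positivity) (by linarith)
    nlinarith
  · obtain ⟨t, rfl⟩ : ∃ t, x = -t := ⟨-x, by ring⟩
    have ht0 : 0 ≤ t := by linarith
    have ht1 : t ≤ 1 / 2 := by linarith
    have hs : 0 ≤ t + t ^ 2 := by positivity
    have h := Real.quadratic_le_exp_of_nonneg hs
    have e : -t - (-t) ^ 2 = -(t + t ^ 2) := by ring
    rw [e, Real.exp_neg]
    rw [inv_le_iff_one_le_mul₀ (Real.exp_pos _)]
    have h5 : 0 ≤ 1 + -t := by linarith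
    have h6 : (1 + (t + t ^ 2) + (t + t ^ 2) ^ 2 / 2) * (1 + -t) ≤
        Real.exp (t + t ^ 2) * (1 + -t) := mul_le_mul_of_nonneg_right h h5
    have h7 : 1 ≤ (1 + (t + t ^ 2) + (t + t ^ 2) ^ 2 / 2) * (1 + -t) := by
      have h8 : (1 + (t + t ^ 2) + (t + t ^ 2) ^ 2 / 2) * (1 + -t) =
          1 + t ^ 2 / 2 * (1 - t - t ^ 2 - t ^ 3) := by ring
      have h9 : 0 ≤ 1 - t - t ^ 2 - t ^ 3 := by nlinarith [pow_nonneg ht0 2, pow_nonneg ht0 3]
      rw [h8]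
      have := mul_nonneg (show (0 : ℝ) ≤ t ^ 2 / 2 by positivity) h9
      linarith
    linarith

theorem pow_ge_exp (C T : ℝ) (hC : 0 < C) (hT : |T| ≤ C / 2) (m : ℕ) :
    C ^ m * Real.exp (m / C * T - m * T ^ 2 / (C * C)) ≤ (C + T) ^ m := by
  obtain ⟨a, b⟩ := abs_le.1 hT
  have h1 : -(1 / 2) ≤ T / C := by rw [le_div_iff₀ hC]; linarith
  have h2 : T / C ≤ 1 / 2 := by rw [div_le_iff₀ hC]; linarith
  have h := one_add_ge_exp _ h1 h2
  have e : (m : ℝ) / C * T - m * T ^ 2 / (C * C) = m * (T / C - (T / C) ^ 2) := by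
    field_simp
  have e2 : C + T = C * (1 + T / C) := by field_simp
  rw [e, e2, mul_pow, Real.exp_nat_mul]
  exact mul_le_mul_of_nonneg_left (pow_le_pow_left₀ (Real.exp_pos _).le h m) (by positivity)

end H84.ZZ
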